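import Pool.Agent.H.MP_e67678_an.B

namespace Pool.Agent.Results.MP_e67678_an.Discont
open Pool.Agent.H.MP_e67678_an Filter Topology Finset TopologicalSpace

theorem result : ∃ (I E : Type) (_ : NormedAddCommGroup E) (_ : NormedSpace ℝ E)
    (_ : CompleteSpace E) (D : Set (Finset I)) (x : I → E), (∀ i, ∃ d ∈ D, i ∈ d) ∧
      (∀ d ∈ D, ∀ d' ∈ D, ∃ d'' ∈ D, d ⊆ d'' ∧ d' ⊆ d'') ∧ (∀ y, ∃! a, DSum D x a y) ∧
      ∃ f : I → E → ℝ, (∀ y, DSum D x (fun i => f i y) y) ∧ ∃ i, ¬ Continuous (f i) := by
  let E := lp (fun _ : ℕ => ℝ) 1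
  let e : ℕ → E := fun n => lp.single 1 n 1
  let ev : ℕ → E →L[ℝ] ℝ := fun n => lp.evalCLM ℝ (fun _ : ℕ => ℝ) 1 n
  have ee : ∀ n m, ev n (e m) = if n = m then 1 else 0 := fun n m => Pi.single_apply m (1 : ℝ) n
  have ne : ∀ n, ‖e n‖ = 1 := fun n =>
    (lp.norm_single (E := fun _ : ℕ => ℝ) (p := 1) one_pos n 1).trans norm_one
  obtain ⟨b, hb⟩ : ∃ b : ℕ → ℝ, b = fun n : ℕ => 1 / ((n : ℝ) + 1) := ⟨_, rfl⟩
  have b0 : ∀ n, 0 < b n := fun n => by rw [hb]; positivity
  have b1 : ∀ n, b n ≤ 1 := fun n => by
    rw [hb]; exact (div_le_one (by positivity)).2 (by simp)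
  have bt : Tendsto b atTop (𝓝 0) := hb ▸ tendsto_one_div_add_atTop_nhds_zero_nat
  have te : ∀ (c : ℝ) (n : ℕ → ℕ), Tendsto n atTop atTop →
      Tendsto (fun k => (c * b (n k)) • e (n k + 1)) atTop (𝓝 0) := fun c n hn => by
    rw [tendsto_zero_iff_norm_tendsto_zero]
    simpa [norm_smul, ne] using ((bt.comp hn).const_mul c).norm
  let u : ℕ × ℕ → E := fun p => e 0 + (b p.1 / 4) • e (p.1 + 1) + (b p.2 / 4) • e (p.2 + 1)
  have den : Dense (Submodule.span ℝ (Set.range fun n => u (n, n)) : Set E) := by
    rw [Submodule.dense_iff_topologicalClosure_eq_top, eq_top_iff]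
    generalize hS : (Submodule.span ℝ (Set.range fun n => u (n, n))).topologicalClosure = S
    have Sc : IsClosed (S : Set E) := hS ▸ Submodule.isClosed_topologicalClosure _
    have a : ∀ n, u (n, n) ∈ S := fun n =>
      hS ▸ Submodule.le_topologicalClosure _ (Submodule.subset_span ⟨n, rfl⟩)
    have a0 : e 0 ∈ S := Sc.mem_of_tendsto (f := fun n => u (n, n)) (by
      simpa [u, div_eq_inv_mul] using ((tendsto_const_nhds (x := e 0)).add (te 4⁻¹ id tendsto_id)).add
        (te 4⁻¹ id tendsto_id)) (.of_forall a)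
    have a1 : ∀ n, e n ∈ S := fun n => by
      cases n with
      | zero => exact a0
      | succ n =>
        have := (b0 n).ne'
        convert S.smul_mem (2 / b n) (S.sub_mem (a n) a0) using 1
        simp only [u]
        match_scalars <;> field_simp <;> ring
    intro y _
    refine Sc.mem_of_tendsto (lp.hasSum_single (by simp) y) (.of_forall fun s => S.sum_mem fun n _ => ?_)
    convert S.smul_mem (y n) (a1 n) using 1
    simp only [e]
    rw [← lp.single_smul, smul_eq_mul, mul_one]
  haveI : SeparableSpace E := den.isSeparable_iff.1 (Set.countable_range _).isSeparable.span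
  haveI : SecondCountableTopology E := UniformSpace.secondCountable_of_separable E
  obtain ⟨B0, B1, -⟩ := (isBasis_countableBasis E).exists_subset_of_mem_open
    (Set.mem_univ (0 : E)) isOpen_univ
  haveI : Nonempty (countableBasis E) := ⟨⟨B0, B1⟩⟩
  obtain ⟨τ, hτ⟩ := exists_surjective_nat ((ℕ × ℕ) × ℚ × countableBasis E)
  obtain ⟨J, A, h1, h2, h3⟩ := mainB (fun i => u (τ i.unpair.1).1 + b i • e (i + 1)) (ev 0)
    (fun y => lp.norm_apply_le_norm one_ne_zero y 0) (fun i => by simp [u, ee]) (fun i => by
      refine (norm_add_le _ _).trans ((add_le_add_left norm_add₃_le _).trans ?_)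
      simp only [norm_smul, ne, Real.norm_eq_abs, abs_div, abs_of_pos (b0 _)]
      norm_num
      linarith [b1 i, b1 (τ i.unpair.1).1.1, b1 (τ i.unpair.1).1.2]) u
    (fun i => ((τ i.unpair.1).2.1, (τ i.unpair.1).2.2)) (fun p r B hB => by
      obtain ⟨a, ha⟩ := hτ (p, r, ⟨B, hB⟩)
      have t : Tendsto (Nat.pair a) atTop atTop :=
        tendsto_atTop_mono (Nat.right_le_pair a) tendsto_id
      exact ⟨_, t, fun k => by simp [ha], by simpa [ha] using (te 1 _ t).const_add (u p)⟩)
    (den.mono (Submodule.span_mono (by rintro _ ⟨n, rfl⟩; exact ⟨_, rfl⟩))) (fun L hL => by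
      choose c hc using hL
      have k : ∀ n, c (n, n) = c (0, 0) := by
        intro n
        rcases n.eq_zero_or_pos with rfl | hn
        · rfl
        have e1 : (2 : ℝ) • u (n, 0) = u (n, n) + u (0, 0) := by simp only [u]; module
        have e2 := congrArg L e1
        rw [map_smul, hc, map_add, hc, hc] at e2
        have e3 := congrArg (ev (n + 1)) e2
        have e4 := congrArg (ev 1) e2
        simp [u, ee, hn.ne'] at e3 e4
        have := b0 n
        have := b0 0
        have : c (n, n) = c (n, 0) := by nlinarith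
        nlinarith
      refine ⟨c (0, 0), fun y => ?_⟩
      have := ContinuousLinearMap.ext_on den (f := L) (g := c (0, 0) • 1) (by
        rintro _ ⟨n, rfl⟩; simp [hc, k])
      simp [this]) (fun β hβ hs => by
      have k : ∀ j, HasSum (fun i => β i / 4 * ((if j = (τ i.unpair.1).1.1 then 1 else 0) +
          if j = (τ i.unpair.1).1.2 then 1 else 0)) (-β j) := by
        intro j
        have := (b0 j).ne'
        have a := ((hs.mapL (ev (j + 1))).div_const (b j)).sub (hasSum_ite_eq j (β j))
        simp only [map_zero, zero_div, zero_sub] at a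
        refine (congrArg (HasSum · (-β j)) (funext fun i => ?_)).mp a
        simp only [u, map_add, map_smul, ee, smul_eq_mul, add_left_inj, eq_comm (a := i),
          Nat.add_one_ne_zero, if_false]
        generalize (τ i.unpair.1).1.1 = n
        generalize (τ i.unpair.1).1.2 = m
        clear a hb
        split_ifs <;> subst_vars <;> (field_simp; ring)
      have a := hβ.tsum_le_of_sum_le (a₂ := (∑' i, |β i|) / 2) fun s => by
        have b := hasSum_sum fun j (_ : j ∈ s) => (k j).summable.abs.hasSum
        refine le_trans (sum_le_sum fun j _ => ?_) (hasSum_le (fun i => ?_) b (hβ.hasSum.div_const 2))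
        · rw [← abs_neg, ← (k j).tsum_eq]
          exact norm_tsum_le_tsum_norm (k j).summable.norm
        · simp only [abs_mul]
          rw [← mul_sum, sum_congr rfl fun j _ => abs_of_nonneg (by positivity), sum_add_distrib,
            sum_ite_eq', sum_ite_eq', abs_div]
          have := abs_nonneg (β i)
          split_ifs <;> norm_num <;> linarith
      funext i
      have := hβ.le_tsum i fun _ _ => abs_nonneg _
      exact abs_nonpos_iff.1 (by linarith))
  exact dummy A _ h1 h2 0 h3

end Pool.Agent.Results.MP_e67678_an.Discont
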